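import Pool.Agent.R374.TateDefs

/-!
# Tate cohomology and fixed vectors of pro-`p'` subgroups: the algebraic core
-/

namespace Pool.Agent.R374.Tate

open Finset

/-- A sum over a finite set with an action of a cyclic group of prime order without fixed points
lies in a subspace as soon as all sums over orbits do. -/
lemma sum_mem_of_free {k V X : Type*} [Field k] [AddCommGroup V] [Module k V] [DecidableEq X]
    {p : ℕ} (hp : p.Prime) (τ : X → X) (hτ : ∀ x, τ^[p] x = x) (M : Submodule k V) (F : X → V)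
    (h : ∀ x, τ x ≠ x → ∑ j ∈ range p, F (τ^[j] x) ∈ M) :
    ∀ s : Finset X, (∀ x ∈ s, τ x ∈ s) → (∀ x ∈ s, τ x ≠ x) → ∑ x ∈ s, F x ∈ M := by
  intro s
  induction s using Finset.strongInduction with
  | H s ih =>
    intro hs hs'
    rcases s.eq_empty_or_nonempty with rfl | ⟨x, hx⟩
    · simp
    have hper : Function.minimalPeriod τ x = p := by
      have h1 : Function.minimalPeriod τ x ∣ p := Function.IsPeriodicPt.minimalPeriod_dvd (hτ x)
      rcases (Nat.dvd_prime hp).1 h1 with h2 | h2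
      · exact absurd (Function.minimalPeriod_eq_one_iff_isFixedPt.1 h2) (hs' x hx)
      · exact h2
    have hmem : ∀ j, τ^[j] x ∈ s := by
      intro j
      induction j with
      | zero => exact hx
      | succ j ihj => rw [Function.iterate_succ_apply']; exact hs _ ihj
    let O : Finset X := (range p).image (fun j => τ^[j] x)
    have hOs : O ⊆ s := by
      intro y hy
      obtain ⟨j, _, rfl⟩ := mem_image.1 hy
      exact hmem j
    have hsum : ∑ y ∈ O, F y = ∑ j ∈ range p, F (τ^[j] x) := by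
      refine sum_image ?_
      intro a ha b hb hab
      have hinj := Function.iterate_injOn_Iio_minimalPeriod (f := τ) (x := x)
      rw [hper] at hinj
      exact hinj (by simpa using ha) (by simpa using hb) hab
    have hOτ : ∀ y ∈ O, τ y ∈ O := by
      intro y hy
      obtain ⟨j, hj, rfl⟩ := mem_image.1 hy
      rw [mem_range] at hj
      rw [← Function.iterate_succ_apply' τ]
      rcases Nat.lt_or_ge (j + 1) p with h1 | h1
      · exact mem_image.2 ⟨j + 1, mem_range.2 h1, rfl⟩
      · have : j + 1 = p := by omega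
        refine mem_image.2 ⟨0, mem_range.2 hp.pos, ?_⟩
        simp only [Nat.succ_eq_add_one, this, hτ, Function.iterate_zero, id]
    have hOit : ∀ y ∈ O, ∀ j, τ^[j] y ∈ O := by
      intro y hy j
      induction j with
      | zero => exact hy
      | succ j ihj => rw [Function.iterate_succ_apply']; exact hOτ _ ihj
    have hxO : x ∈ O := mem_image.2 ⟨0, mem_range.2 hp.pos, rfl⟩
    have hlt : s \ O ⊂ s := by
      refine (Finset.ssubset_iff_of_subset sdiff_subset).2 ⟨x, hx, ?_⟩
      simp [hxO]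
    have hrest := ih (s \ O) hlt (by
      intro y hy
      rw [mem_sdiff] at hy ⊢
      refine ⟨hs y hy.1, fun hτy => hy.2 ?_⟩
      have h3 := hOit _ hτy (p - 1)
      rw [← Function.iterate_succ_apply τ, Nat.succ_eq_add_one, Nat.sub_add_cancel hp.one_le,
        hτ] at h3
      exact h3) (fun y hy => hs' y (mem_sdiff.1 hy).1)
    rw [← sum_sdiff hOs, hsum]
    exact M.add_mem hrest (h x (hs' x hx))

section core

variable {k G V : Type*} [Field k] [Group G] [AddCommGroup V] [Module k V]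

lemma mem_fixedBy {ρ : Representation k G V} {K : Subgroup G} {v : V} :
    v ∈ fixedBy ρ K ↔ ∀ g ∈ K, ρ g v = v := Iff.rfl

/-- The sum of `ρ u v` over the cosets `u U'` in `U`. -/
noncomputable def traceOp (ρ : Representation k G V) (U U' : Subgroup G)
    [Fintype (U ⧸ U'.subgroupOf U)] : V →ₗ[k] V :=
  ∑ x : U ⧸ U'.subgroupOf U, ρ ((Quotient.out x : U) : G)

lemma rho_out {ρ : Representation k G V} {U U' : Subgroup G} {v : V} (hv : v ∈ fixedBy ρ U')
    (u : U) : ρ ((Quotient.out (QuotientGroup.mk u : U ⧸ U'.subgroupOf U) : U) : G) v =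
      ρ (u : G) v := by
  obtain ⟨h, hh⟩ := QuotientGroup.mk_out_eq_mul (U'.subgroupOf U) u
  rw [hh, Subgroup.coe_mul, map_mul, Module.End.mul_apply]
  rw [mem_fixedBy.1 hv _ (Subgroup.mem_subgroupOf.1 h.2)]

variable {p : ℕ} {σ : G ≃* G} {U U' : Subgroup G}

/-- The map on cosets induced by `σ`. -/
def cosetMap (σ : G ≃* G) (U U' : Subgroup G) (hσU : ∀ g ∈ U, σ g ∈ U)
    (hσU' : ∀ g ∈ U', σ g ∈ U') : U ⧸ U'.subgroupOf U → U ⧸ U'.subgroupOf U :=
  Quotient.map' (fun u => ⟨σ u, hσU _ u.2⟩) (by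
    intro a b hab
    rw [QuotientGroup.leftRel_apply] at hab ⊢
    rw [Subgroup.mem_subgroupOf] at hab ⊢
    have := hσU' _ hab
    simpa using this)

lemma cosetMap_mk (hσU : ∀ g ∈ U, σ g ∈ U) (hσU' : ∀ g ∈ U', σ g ∈ U') (u : U) :
    cosetMap σ U U' hσU hσU' (QuotientGroup.mk u) =
      QuotientGroup.mk (⟨σ u, hσU _ u.2⟩ : U) := rfl

lemma iterate_mem (hσU : ∀ g ∈ U, σ g ∈ U) (j : ℕ) (g : G) (hg : g ∈ U) : σ^[j] g ∈ U := by
  induction j with
  | zero => exact hg
  | succ j ih => rw [Function.iterate_succ_apply']; exact hσU _ ih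

lemma cosetMap_iterate_mk (hσU : ∀ g ∈ U, σ g ∈ U) (hσU' : ∀ g ∈ U', σ g ∈ U') (u : U) (j : ℕ) :
    (cosetMap σ U U' hσU hσU')^[j] (QuotientGroup.mk u) =
      QuotientGroup.mk (⟨σ^[j] u, iterate_mem hσU j _ u.2⟩ : U) := by
  induction j with
  | zero => rfl
  | succ j ih =>
    rw [Function.iterate_succ_apply', ih, cosetMap_mk]
    congr 1
    exact Subtype.ext (Function.iterate_succ_apply' σ j (u : G)).symm

lemma cosetMap_period (hσp : ∀ g, σ^[p] g = g) (hσU : ∀ g ∈ U, σ g ∈ U)
    (hσU' : ∀ g ∈ U', σ g ∈ U') (x : U ⧸ U'.subgroupOf U) :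
    (cosetMap σ U U' hσU hσU')^[p] x = x := by
  induction x using QuotientGroup.induction_on with
  | H u =>
    rw [cosetMap_iterate_mk]
    congr 1
    exact Subtype.ext (hσp _)

lemma cosetMap_bijective (hp : p.Prime) (hσp : ∀ g, σ^[p] g = g) (hσU : ∀ g ∈ U, σ g ∈ U)
    (hσU' : ∀ g ∈ U', σ g ∈ U') : Function.Bijective (cosetMap σ U U' hσU hσU') := by
  have h1 : ∀ x, cosetMap σ U U' hσU hσU' ((cosetMap σ U U' hσU hσU')^[p - 1] x) = x := by
    intro x
    rw [← Function.iterate_succ_apply' (cosetMap σ U U' hσU hσU'), Nat.succ_eq_add_one,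
      Nat.sub_add_cancel hp.one_le]
    exact cosetMap_period hσp hσU hσU' x
  have h2 : ∀ x, (cosetMap σ U U' hσU hσU')^[p - 1] (cosetMap σ U U' hσU hσU' x) = x := by
    intro x
    rw [← Function.iterate_succ_apply (cosetMap σ U U' hσU hσU'), Nat.succ_eq_add_one,
      Nat.sub_add_cancel hp.one_le]
    exact cosetMap_period hσp hσU hσU' x
  exact Function.bijective_iff_has_inverse.2 ⟨_, h2, h1⟩

/-- Number of fixed cosets and the number of cosets are congruent modulo `p`. -/
lemma card_fixed_modEq {X : Type*} [Fintype X] [DecidableEq X] (hp : p.Prime) (τ : X → X)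
    (hτ : ∀ x, τ^[p] x = x) :
    ¬ p ∣ Fintype.card X → ¬ p ∣ (univ.filter (fun x => τ x = x)).card := by
  have := Fact.mk hp
  have hmem := sum_mem_of_free (k := ZMod p) (V := ZMod p) hp τ hτ ⊥ (fun _ => 1) (by
    intro x _
    simp) (univ.filter (fun x => ¬ τ x = x)) (by
      intro x hx
      simp only [mem_filter, mem_univ, true_and] at hx ⊢
      intro h
      apply hx
      have h3 : τ^[p - 1] (τ x) = x := by
        rw [← Function.iterate_succ_apply, Nat.succ_eq_add_one, Nat.sub_add_cancel hp.one_le, hτ]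
      have h4 : ∀ j, τ^[j] (τ x) = τ x := fun j => Function.iterate_fixed h j
      rw [h4] at h3
      exact h3) (by
      intro x hx
      simpa using hx)
  rw [Submodule.mem_bot, sum_const, nsmul_eq_mul, mul_one, ZMod.natCast_eq_zero_iff] at hmem
  intro h hdvd
  apply h
  have := Finset.card_filter_add_card_filter_not (s := (univ : Finset X)) (fun x => τ x = x)
  rw [Finset.card_univ] at this
  rw [← this]
  exact dvd_add hdvd hmem

/-- **Core lemma.** -/
lemma core (hp : p.Prime) (ρ : Representation k G V) [Fintype (U ⧸ U'.subgroupOf U)]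
    (hσp : ∀ g, σ^[p] g = g) (hσU : ∀ g ∈ U, σ g ∈ U) (hσU' : ∀ g ∈ U', σ g ∈ U')
    (hcard : ¬ p ∣ Fintype.card (U ⧸ U'.subgroupOf U))
    (hlift : ∀ u ∈ U, u⁻¹ * σ u ∈ U' → ∃ c ∈ U, σ c = c ∧ u⁻¹ * c ∈ U')
    (v : V) (hv : v ∈ fixedBy ρ U') (R : Submodule k V)
    (hfree : ∀ u ∈ U, ∑ j ∈ range p, ρ (σ^[j] u) v ∈ R)
    (hfix : ∀ c ∈ U, σ c = c → ρ c v - v ∈ R) :
    ∃ m : ℕ, ¬ p ∣ m ∧ traceOp ρ U U' v - (m : k) • v ∈ R := by
  classical
  let τ := cosetMap σ U U' hσU hσU'
  have hτ : ∀ x, τ^[p] x = x := cosetMap_period hσp hσU hσU'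
  let F : U ⧸ U'.subgroupOf U → V := fun x => ρ ((Quotient.out x : U) : G) v
  have hF : ∀ u : U, F (QuotientGroup.mk u) = ρ (u : G) v := fun u => rho_out hv u
  refine ⟨(univ.filter (fun x => τ x = x)).card, card_fixed_modEq hp τ hτ hcard, ?_⟩
  have hsplit : traceOp ρ U U' v = ∑ x ∈ univ.filter (fun x => τ x = x), F x +
      ∑ x ∈ univ.filter (fun x => ¬ τ x = x), F x := by
    rw [Finset.sum_filter_add_sum_filter_not]
    simp [traceOp, F]
  have hfree' : ∑ x ∈ univ.filter (fun x => ¬ τ x = x), F x ∈ R := by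
    refine sum_mem_of_free hp τ hτ R F ?_ _ ?_ ?_
    · intro x _
      induction x using QuotientGroup.induction_on with
      | H u =>
        have : ∀ j ∈ range p, F (τ^[j] (QuotientGroup.mk u)) = ρ (σ^[j] (u : G)) v := by
          intro j _
          rw [cosetMap_iterate_mk, hF]
        rw [Finset.sum_congr rfl this]
        exact hfree _ u.2
    · intro x hx
      simp only [mem_filter, mem_univ, true_and] at hx ⊢
      intro h
      exact hx ((cosetMap_bijective hp hσp hσU hσU').1 h)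
    · intro x hx
      simpa using hx
  have hfix' : ∑ x ∈ univ.filter (fun x => τ x = x), F x -
      (((univ.filter (fun x => τ x = x)).card : ℕ) : k) • v ∈ R := by
    have : (((univ.filter (fun x => τ x = x)).card : ℕ) : k) • v =
        ∑ x ∈ univ.filter (fun x => τ x = x), v := by
      rw [sum_const, Nat.cast_smul_eq_nsmul]
    rw [this, ← sum_sub_distrib]
    refine Submodule.sum_mem _ fun x hx => ?_
    rw [mem_filter] at hx
    obtain ⟨-, hx⟩ := hx
    induction x using QuotientGroup.induction_on with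
    | H u =>
      have hx' : (QuotientGroup.mk (⟨σ u, hσU _ u.2⟩ : U) : U ⧸ U'.subgroupOf U) =
        QuotientGroup.mk u := hx
      have h1 : (u : G)⁻¹ * σ u ∈ U' := by
        have := QuotientGroup.eq.1 hx'.symm
        simpa [Subgroup.mem_subgroupOf] using this
      obtain ⟨c, hcU, hσc, hc⟩ := hlift u u.2 h1
      have h2 : (QuotientGroup.mk u : U ⧸ U'.subgroupOf U) = QuotientGroup.mk (⟨c, hcU⟩ : U) := by
        rw [QuotientGroup.eq, Subgroup.mem_subgroupOf]
        simpa using hc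
      rw [h2, hF]
      exact hfix c hcU hσc
  have : traceOp ρ U U' v - (((univ.filter (fun x => τ x = x)).card : ℕ) : k) • v =
      (∑ x ∈ univ.filter (fun x => τ x = x), F x -
      (((univ.filter (fun x => τ x = x)).card : ℕ) : k) • v) +
      ∑ x ∈ univ.filter (fun x => ¬ τ x = x), F x := by
    rw [hsplit]; abel
  rw [this]
  exact R.add_mem hfix' hfree'

/-- The trace of a vector fixed by `U'` is fixed by `U`. -/
lemma traceOp_mem (ρ : Representation k G V) [Fintype (U ⧸ U'.subgroupOf U)]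
    (v : V) (hv : v ∈ fixedBy ρ U') : traceOp ρ U U' v ∈ fixedBy ρ U := by
  intro g hg
  simp only [traceOp, LinearMap.sum_apply, map_sum]
  have h1 : ∀ x : U ⧸ U'.subgroupOf U, ρ g (ρ ((Quotient.out x : U) : G) v) =
      ρ ((Quotient.out ((⟨g, hg⟩ : U) • x) : U) : G) v := by
    intro x
    have h2 : (⟨g, hg⟩ : U) • x = QuotientGroup.mk ((⟨g, hg⟩ : U) * Quotient.out x) := by
      conv_lhs => rw [← QuotientGroup.out_eq' x]
      rfl
    rw [h2, rho_out hv, Subgroup.coe_mul, map_mul, Module.End.mul_apply]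
  rw [Finset.sum_congr rfl fun x _ => h1 x]
  exact Fintype.sum_equiv (MulAction.toPerm (⟨g, hg⟩ : U)) _ _ (fun x => rfl)

/-- The action of `σ` commutes with the trace. -/
lemma traceOp_comm (hp : p.Prime) (ρ : Representation k G V) [Fintype (U ⧸ U'.subgroupOf U)]
    (hσp : ∀ g, σ^[p] g = g) (hσU : ∀ g ∈ U, σ g ∈ U) (hσU' : ∀ g ∈ U', σ g ∈ U')
    (A : V →ₗ[k] V) (hA : ∀ (g : G) (v : V), A (ρ g v) = ρ (σ g) (A v))
    (v : V) (hv : A v ∈ fixedBy ρ U') : A (traceOp ρ U U' v) = traceOp ρ U U' (A v) := by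
  simp only [traceOp, LinearMap.sum_apply, map_sum]
  refine Fintype.sum_bijective _ (cosetMap_bijective hp hσp hσU hσU') _ _ fun x => ?_
  rw [hA]
  conv_rhs => rw [← QuotientGroup.out_eq' x]
  rw [cosetMap_mk, rho_out hv]

lemma pow_intertwine {ρ : Representation k G V} {A : V →ₗ[k] V}
    (hA : ∀ (g : G) (v : V), A (ρ g v) = ρ (σ g) (A v)) (j : ℕ) (g : G) (v : V) :
    (A ^ j) (ρ g v) = ρ (σ^[j] g) ((A ^ j) v) := by
  induction j with
  | zero => simp
  | succ j ih =>
    rw [pow_succ', Module.End.mul_apply, ih, hA, Function.iterate_succ_apply',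
      Module.End.mul_apply]

lemma pow_mem_fixedBy {ρ : Representation k G V} {A : V →ₗ[k] V} {p : ℕ}
    (hσp : ∀ g, σ^[p] g = g) (hσU' : ∀ g ∈ U', σ g ∈ U')
    (hA : ∀ (g : G) (v : V), A (ρ g v) = ρ (σ g) (A v)) (hp : 1 ≤ p) (v : V)
    (hv : v ∈ fixedBy ρ U') : A v ∈ fixedBy ρ U' := by
  intro g hg
  have h1 : σ (σ^[p - 1] g) = g := by
    rw [← Function.iterate_succ_apply' σ, Nat.succ_eq_add_one, Nat.sub_add_cancel hp, hσp]
  have h2 := hA (σ^[p - 1] g) v
  rw [h1, hv _ (iterate_mem hσU' _ _ hg)] at h2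
  exact h2.symm

end core

end Pool.Agent.R374.Tate
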