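import Mathlib

/-!
# Smooth representations and Tate cohomology: definitions
-/

namespace Pool.Agent.R374.Tate

section defs

variable {k G V : Type*} [Field k] [Group G] [AddCommGroup V] [Module k V]

/-- Smoothness: every vector has an open stabiliser. -/
def IsSmooth [TopologicalSpace G] (ρ : Representation k G V) : Prop :=
  ∀ v : V, IsOpen {g : G | ρ g v = v}

/-- The subspace `V^K` of the vectors fixed by the subgroup `K`. -/
def fixedBy (ρ : Representation k G V) (K : Subgroup G) : Submodule k V where
  carrier := {v | ∀ g ∈ K, ρ g v = v}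
  add_mem' := by
    intro a b ha hb g hg
    rw [map_add, ha g hg, hb g hg]
  zero_mem' := by
    intro g _
    rw [map_zero]
  smul_mem' := by
    intro c v hv g hg
    rw [map_smul, hv g hg]

/-- Admissibility: smooth, and `V^K` is finite-dimensional for every compact open subgroup `K`. -/
def IsAdmissible [TopologicalSpace G] (ρ : Representation k G V) : Prop :=
  IsSmooth ρ ∧ ∀ K : Subgroup G, IsOpen (K : Set G) → IsCompact (K : Set G) →
    FiniteDimensional k (fixedBy ρ K)

/-- Irreducibility: `V ≠ 0` and the only invariant subspaces are `0` and `V`. -/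
def IsIrred (ρ : Representation k G V) : Prop :=
  Nontrivial V ∧ ∀ W : Submodule k V, (∀ g, ∀ w ∈ W, ρ g w ∈ W) → W = ⊥ ∨ W = ⊤

/-- The subgroup of the fixed points of an automorphism `σ` of `G`. -/
def fixedSubgroup (σ : G ≃* G) : Subgroup G where
  carrier := {g | σ g = g}
  mul_mem' := by
    intro a b ha hb
    simp only [Set.mem_ofPred_eq] at *
    rw [map_mul, ha, hb]
  one_mem' := map_one σ
  inv_mem' := by
    intro a ha
    simp only [Set.mem_ofPred_eq] at *
    rw [map_inv, ha]

/-- The linear operator `A` on `V` is an action of `σ` on the representation `ρ`: the maps `ρ` and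
`σ ↦ A` define a representation of the semidirect product `G ⋊ ⟨σ⟩` (where `σ ^ p = 1`). -/
structure IsAction (ρ : Representation k G V) (σ : G ≃* G) (p : ℕ) (A : V →ₗ[k] V) : Prop where
  intertwine : ∀ (g : G) (v : V), A (ρ g v) = ρ (σ g) (A v)
  pow_eq_one : A ^ p = 1

/-- The norm operator `N = 1 + σ + ... + σ^(p-1)`. -/
def normOp (p : ℕ) (A : V →ₗ[k] V) : V →ₗ[k] V := ∑ j ∈ Finset.range p, A ^ j

/-- The representation of `H` on the quotient `M / (M ∩ N)` of two stable subspaces of `V`. -/
def subquotRep {H : Type*} [Group H] (ρ : Representation k H V) (M N : Submodule k V)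
    (hM : ∀ h, ∀ v ∈ M, ρ h v ∈ M) (hN : ∀ h, ∀ v ∈ N, ρ h v ∈ N) :
    Representation k H (M ⧸ N.submoduleOf M) where
  toFun h := Submodule.mapQ _ _ ((ρ h).restrict (hM h)) (by
    intro v hv
    exact hN h _ hv)
  map_one' := by
    refine Submodule.linearMap_qext _ (LinearMap.ext fun v => ?_)
    have h : (ρ 1).restrict (hM 1) v = v := Subtype.ext (by simp [LinearMap.restrict_apply])
    exact congrArg (Submodule.Quotient.mk (p := N.submoduleOf M)) h
  map_mul' := by
    intro a b
    refine Submodule.linearMap_qext _ (LinearMap.ext fun v => ?_)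
    have h : (ρ (a * b)).restrict (hM (a * b)) v =
        (ρ a).restrict (hM a) ((ρ b).restrict (hM b) v) :=
      Subtype.ext (by simp [LinearMap.restrict_apply])
    exact congrArg (Submodule.Quotient.mk (p := N.submoduleOf M)) h

variable {ρ : Representation k G V} {σ : G ≃* G} {p : ℕ} {A : V →ₗ[k] V}

lemma IsAction.comm (hA : IsAction ρ σ p A) (h : fixedSubgroup σ) (v : V) :
    A (ρ (h : G) v) = ρ (h : G) (A v) := by
  rw [hA.intertwine]
  have : σ (h : G) = h := h.2
  rw [this]

lemma IsAction.pow_comm (hA : IsAction ρ σ p A) (h : fixedSubgroup σ) (j : ℕ) (v : V) :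
    (A ^ j) (ρ (h : G) v) = ρ (h : G) ((A ^ j) v) := by
  induction j with
  | zero => simp
  | succ j ih => rw [pow_succ', Module.End.mul_apply, ih, hA.comm, Module.End.mul_apply]

lemma IsAction.norm_comm (hA : IsAction ρ σ p A) (h : fixedSubgroup σ) (v : V) :
    normOp p A (ρ (h : G) v) = ρ (h : G) (normOp p A v) := by
  simp only [normOp, LinearMap.sum_apply, map_sum, hA.pow_comm]

/-- The representation of `G^σ` on the Tate cohomology group
`T^0 = ker (1 - σ) / N V`. -/
noncomputable def tateZero (hA : IsAction ρ σ p A) :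
    Representation k (fixedSubgroup σ)
      (LinearMap.ker (LinearMap.id - A) ⧸
        (LinearMap.range (normOp p A)).submoduleOf (LinearMap.ker (LinearMap.id - A))) :=
  subquotRep (ρ.comp (fixedSubgroup σ).subtype) (LinearMap.ker (LinearMap.id - A))
    (LinearMap.range (normOp p A))
    (by
      intro h v hv
      rw [LinearMap.mem_ker, LinearMap.sub_apply, LinearMap.id_apply, sub_eq_zero] at hv ⊢
      change ρ (h : G) v = A (ρ (h : G) v)
      rw [hA.comm, ← hv])
    (by
      rintro h _ ⟨w, rfl⟩
      exact ⟨ρ (h : G) w, hA.norm_comm h w⟩)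

/-- The representation of `G^σ` on the Tate cohomology group
`T^1 = ker N / (1 - σ) V`. -/
noncomputable def tateOne (hA : IsAction ρ σ p A) :
    Representation k (fixedSubgroup σ)
      (LinearMap.ker (normOp p A) ⧸
        (LinearMap.range (LinearMap.id - A)).submoduleOf (LinearMap.ker (normOp p A))) :=
  subquotRep (ρ.comp (fixedSubgroup σ).subtype) (LinearMap.ker (normOp p A))
    (LinearMap.range (LinearMap.id - A))
    (by
      intro h v hv
      rw [LinearMap.mem_ker] at hv ⊢
      change normOp p A (ρ (h : G) v) = 0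
      rw [hA.norm_comm, hv, map_zero])
    (by
      rintro h _ ⟨w, rfl⟩
      refine ⟨ρ (h : G) w, ?_⟩
      change ρ (h : G) w - A (ρ (h : G) w) = ρ (h : G) (w - A w)
      rw [hA.comm, map_sub])

end defs

end Pool.Agent.R374.Tate
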