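import Pool.Agent.R374.TateMain

/-!
# Closed subgroups of `GL_n` of a local field have small pro-`p'` subgroups
-/

set_option linter.unusedSectionVars false
set_option linter.style.haveILetI false

namespace Pool.Agent.R374.Tate

open ValuativeRel

section loc

variable {F : Type*} [Field F] [ValuativeRel F] [TopologicalSpace F] [IsNonarchimedeanLocalField F]

lemma t2_local : T2Space F := by
  refine IsTopologicalAddGroup.t2Space_of_zero_sep (fun x hx => ?_)
  have hx' : valuation F x ≠ 0 := by simpa using hx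
  refine ⟨{z | valuation F z < valuation F x}, ?_, by simp⟩
  exact (IsValuativeTopology.hasBasis_nhds_zero' F).mem_of_mem hx'

lemma isOpen_vball {γ : ValueGroupWithZero F} (hγ : γ ≠ 0) :
    IsOpen {x : F | valuation F x < γ} := by
  rw [isOpen_iff_mem_nhds]
  intro x hx
  rw [IsValuativeTopology.mem_nhds_iff]
  refine ⟨Units.mk0 γ hγ, ?_⟩
  rintro _ ⟨z, hz, rfl⟩
  exact (valuation F).map_add_lt hx hz

lemma isClosed_vball (γ : ValueGroupWithZero F) :
    IsClosed {x : F | valuation F x < γ} := by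
  rcases eq_or_ne γ 0 with rfl | hγ
  · convert isClosed_empty
    ext x
    simp
  rw [← isOpen_compl_iff, isOpen_iff_mem_nhds]
  intro x hx
  rw [IsValuativeTopology.mem_nhds_iff]
  refine ⟨Units.mk0 γ hγ, ?_⟩
  rintro _ ⟨z, hz, rfl⟩
  simp only [Set.mem_compl_iff, Set.mem_ofPred_eq, not_lt] at hx ⊢
  have h1 : valuation F z < valuation F x := lt_of_lt_of_le hz hx
  rw [(valuation F).map_add_eq_of_lt_left h1]
  exact hx

lemma isCompact_vball : IsCompact {x : F | valuation F x < 1} :=
  (IsNonarchimedeanLocalField.isCompact_closedBall F 1).of_isClosed_subset (isClosed_vball 1)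
    (fun x (hx : valuation F x < 1) => (le_of_lt hx : valuation F x ≤ 1))

variable {n : ℕ}

lemma mul_entry_lt {γ δ : ValueGroupWithZero F} (hγ : γ ≠ 0) (hδ : δ ≤ 1)
    {X Y : Matrix (Fin n) (Fin n) F} (hX : ∀ i j, valuation F (X i j) < γ)
    (hY : ∀ i j, valuation F (Y i j) ≤ δ) (i j : Fin n) :
    valuation F ((X * Y) i j) < γ := by
  rw [Matrix.mul_apply]
  refine (valuation F).map_sum_lt hγ fun l _ => ?_
  rw [map_mul]
  calc valuation F (X i l) * valuation F (Y l j) ≤ valuation F (X i l) * 1 := by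
        gcongr
        exact (hY l j).trans hδ
    _ = valuation F (X i l) := mul_one _
    _ < γ := hX i l

/-- The congruence subgroup of level `γ`. -/
def cong (n : ℕ) (γ : ValueGroupWithZero F) (hγ : γ ≠ 0) (hγ1 : γ ≤ 1) :
    Subgroup (GL (Fin n) F) where
  carrier := {g | (∀ i j, valuation F ((g.1 - 1) i j) < γ) ∧
    ∀ i j, valuation F ((g⁻¹.1 - 1) i j) < γ}
  mul_mem' := by
    have key : ∀ X Y : Matrix (Fin n) (Fin n) F, (∀ i j, valuation F ((X - 1) i j) < γ) →
        (∀ i j, valuation F ((Y - 1) i j) < γ) → ∀ i j, valuation F ((X * Y - 1) i j) < γ := by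
      intro X Y hX hY i j
      have h1 : X * Y - 1 = (X - 1) * (Y - 1) + (X - 1) + (Y - 1) := by noncomm_ring
      rw [h1, Matrix.add_apply, Matrix.add_apply]
      refine (valuation F).map_add_lt ((valuation F).map_add_lt ?_ (hX i j)) (hY i j)
      exact mul_entry_lt hγ hγ1 hX (fun i j => (hY i j).le) i j
    intro g h hg hh
    refine ⟨key _ _ hg.1 hh.1, ?_⟩
    rw [mul_inv_rev]
    exact key _ _ hh.2 hg.2
  one_mem' := by
    simp only [Set.mem_ofPred_eq, inv_one, Units.val_one, sub_self, Matrix.zero_apply, map_zero,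
      and_self]
    exact fun _ _ => zero_lt_iff.2 hγ
  inv_mem' := by
    intro g hg
    exact ⟨hg.2, by simpa using hg.1⟩

lemma mem_cong {γ : ValueGroupWithZero F} {hγ : γ ≠ 0} {hγ1 : γ ≤ 1} {g : GL (Fin n) F} :
    g ∈ cong n γ hγ hγ1 ↔ (∀ i j, valuation F ((g.1 - 1) i j) < γ) ∧
      ∀ i j, valuation F ((g⁻¹.1 - 1) i j) < γ := Iff.rfl

lemma cont_entry (i j : Fin n) : Continuous fun g : GL (Fin n) F => (g.1 - 1) i j := by
  have h1 : Continuous fun g : GL (Fin n) F => (g.1 - 1 : Matrix (Fin n) (Fin n) F) :=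
    Units.continuous_val.sub continuous_const
  exact h1.matrix_elem i j

lemma isOpen_cong {γ : ValueGroupWithZero F} (hγ : γ ≠ 0) (hγ1 : γ ≤ 1) :
    IsOpen (cong n γ hγ hγ1 : Set (GL (Fin n) F)) := by
  have : (cong n γ hγ hγ1 : Set (GL (Fin n) F)) =
      (⋂ i, ⋂ j, (fun g : GL (Fin n) F => (g.1 - 1) i j) ⁻¹' {x | valuation F x < γ}) ∩
      (⋂ i, ⋂ j, (fun g : GL (Fin n) F => (g⁻¹.1 - 1) i j) ⁻¹' {x | valuation F x < γ}) := by
    ext g
    simp [mem_cong]
  rw [this]
  refine IsOpen.inter ?_ ?_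
  · exact isOpen_iInter_of_finite fun i => isOpen_iInter_of_finite fun j =>
      (isOpen_vball hγ).preimage (cont_entry i j)
  · exact isOpen_iInter_of_finite fun i => isOpen_iInter_of_finite fun j =>
      (isOpen_vball hγ).preimage ((cont_entry i j).comp continuous_inv)

/-- The matrices with entries in the open unit ball around the identity matrix. -/
lemma isCompact_mat : IsCompact {X : Matrix (Fin n) (Fin n) F |
    ∀ i j, valuation F ((X - 1) i j) < 1} := by
  have h1 : IsCompact (Set.pi Set.univ fun _ : Fin n => Set.pi Set.univ fun _ : Fin n =>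
      {x : F | valuation F x < 1}) :=
    isCompact_univ_pi fun _ => isCompact_univ_pi fun _ => isCompact_vball
  have h2 : IsCompact ((fun X : Matrix (Fin n) (Fin n) F => X + 1) ''
      {X : Matrix (Fin n) (Fin n) F | ∀ i j, valuation F (X i j) < 1}) := by
    refine IsCompact.image ?_ (continuous_id.add continuous_const)
    have h3 : {X : Matrix (Fin n) (Fin n) F | ∀ i j, valuation F (X i j) < 1} =
      (Set.pi Set.univ fun _ : Fin n => Set.pi Set.univ fun _ : Fin n =>
        {x : F | valuation F x < 1} : Set (Fin n → Fin n → F)) := by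
      apply Set.ext
      intro X
      constructor
      · intro h i _ j _
        exact h i j
      · intro h i j
        exact h i (Set.mem_univ _) j (Set.mem_univ _)
    rw [h3]
    exact h1
  convert h2 using 1
  ext X
  simp only [Set.mem_ofPred_eq, Set.mem_image]
  constructor
  · intro h
    exact ⟨X - 1, h, by simp⟩
  · rintro ⟨Y, hY, rfl⟩
    simpa using hY

lemma isCompact_cong : IsCompact (cong n (1 : ValueGroupWithZero F) one_ne_zero le_rfl :
    Set (GL (Fin n) F)) := by
  haveI : T2Space F := t2_local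
  have hemb : Topology.IsClosedEmbedding (Units.embedProduct (Matrix (Fin n) (Fin n) F)) :=
    Units.isClosedEmbedding_embedProduct
  let C : Set (Matrix (Fin n) (Fin n) F) := {X | ∀ i j, valuation F ((X - 1) i j) < 1}
  have hC : IsCompact C := isCompact_mat
  have hCop : IsCompact (MulOpposite.op '' C) := hC.image MulOpposite.continuous_op
  have h1 : IsCompact (C ×ˢ (MulOpposite.op '' C)) := hC.prod hCop
  have h2 := hemb.isCompact_preimage h1
  convert h2 using 1
  ext g
  simp only [SetLike.mem_coe, mem_cong, Set.mem_preimage, Units.embedProduct_apply,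
    Set.mem_prod, C, Set.mem_ofPred_eq, Set.mem_image]
  constructor
  · rintro ⟨ha, hb⟩
    exact ⟨ha, _, hb, rfl⟩
  · rintro ⟨ha, Y, hb, hY⟩
    refine ⟨ha, ?_⟩
    have : Y = g⁻¹.1 := MulOpposite.op_injective hY
    rw [← this]
    exact hb

/-- The congruence subgroups form a basis of neighbourhoods of the identity. -/
lemma exists_cong_subset (S : Set (GL (Fin n) F)) (hS : IsOpen S) (h1 : (1 : GL (Fin n) F) ∈ S) :
    ∃ (γ : ValueGroupWithZero F) (hγ : γ ≠ 0) (hγ1 : γ ≤ 1),
      (cong n γ hγ hγ1 : Set (GL (Fin n) F)) ⊆ S := by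
  let Φ : GL (Fin n) F → (Fin n → Fin n → F) × (Fin n → Fin n → F) :=
    fun g => (fun i j => (g.1 - 1) i j, fun i j => (g⁻¹.1 - 1) i j)
  have hbasis : ∀ T : Set (Fin n → Fin n → F), T ∈ nhds (0 : Fin n → Fin n → F) →
      ∃ γ : ValueGroupWithZero F, γ ≠ 0 ∧ γ ≤ 1 ∧ ∀ X : Fin n → Fin n → F,
        (∀ i j, valuation F (X i j) < γ) → X ∈ T := by
    intro T hT
    rw [nhds_pi, Filter.mem_pi] at hT
    obtain ⟨I, -, t, ht, hIt⟩ := hT
    have h2 : ∀ i, ∃ u : Fin n → Set F, (∀ j, u j ∈ nhds (0 : F)) ∧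
        Set.pi Set.univ u ⊆ t i := by
      intro i
      have := ht i
      rw [Pi.zero_apply, nhds_pi, Filter.mem_pi] at this
      obtain ⟨J, -, u, hu, hJu⟩ := this
      exact ⟨u, hu, (Set.pi_mono' (fun _ _ => subset_rfl) (Set.subset_univ J)).trans hJu⟩
    choose u hu hut using h2
    have h3 : ∀ i j, ∃ γ : ValueGroupWithZero F, γ ≠ 0 ∧ {x | valuation F x < γ} ⊆ u i j := by
      intro i j
      obtain ⟨γ, hγ, h⟩ := (IsValuativeTopology.hasBasis_nhds_zero' F).mem_iff.1 (hu i j)
      exact ⟨γ, hγ, h⟩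
    choose γ hγ hγu using h3
    let s : Finset (ValueGroupWithZero F) :=
      insert 1 (Finset.univ.image fun ij : Fin n × Fin n => γ ij.1 ij.2)
    have hs : s.Nonempty := Finset.insert_nonempty _ _
    refine ⟨s.min' hs, ?_, s.min'_le _ (Finset.mem_insert_self _ _), ?_⟩
    · have := s.min'_mem hs
      rcases Finset.mem_insert.1 this with h | h
      · rw [h]; exact one_ne_zero
      · obtain ⟨ij, -, hij⟩ := Finset.mem_image.1 h
        rw [← hij]
        exact hγ _ _
    · intro X hX
      apply hIt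
      intro i _
      apply hut i
      intro j _
      apply hγu i j
      refine lt_of_lt_of_le (hX i j) (s.min'_le _ ?_)
      exact Finset.mem_insert_of_mem (Finset.mem_image.2 ⟨(i, j), Finset.mem_univ _, rfl⟩)
  -- the topology is induced by `Φ`
  have hS' : S ∈ nhds (1 : GL (Fin n) F) := hS.mem_nhds h1
  rw [Units.isEmbedding_embedProduct.isInducing.nhds_eq_comap, Filter.mem_comap] at hS'
  obtain ⟨T, hT, hTS⟩ := hS'
  rw [map_one, Prod.one_eq_mk, nhds_prod_eq, Filter.mem_prod_iff] at hT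
  obtain ⟨T₁, hT₁, T₂, hT₂, hTT⟩ := hT
  have e1 : {X : Fin n → Fin n → F | (Matrix.of X + 1 : Matrix (Fin n) (Fin n) F) ∈ T₁} ∈
      nhds (0 : Fin n → Fin n → F) := by
    have hc : Continuous fun X : Fin n → Fin n → F => (Matrix.of X + 1 :
        Matrix (Fin n) (Fin n) F) := by
      refine Continuous.add ?_ continuous_const
      exact continuous_id
    have := hc.tendsto 0
    simp only [Matrix.of_zero, zero_add] at this
    exact this hT₁
  have e2 : {X : Fin n → Fin n → F | MulOpposite.op (Matrix.of X + 1 :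
      Matrix (Fin n) (Fin n) F) ∈ T₂} ∈ nhds (0 : Fin n → Fin n → F) := by
    have hc : Continuous fun X : Fin n → Fin n → F => MulOpposite.op (Matrix.of X + 1 :
        Matrix (Fin n) (Fin n) F) := by
      refine MulOpposite.continuous_op.comp (Continuous.add ?_ continuous_const)
      exact continuous_id
    have := hc.tendsto 0
    simp only [Matrix.of_zero, zero_add] at this
    exact this hT₂
  obtain ⟨γ₁, hγ₁, hγ₁1, hA⟩ := hbasis _ e1
  obtain ⟨γ₂, hγ₂, hγ₂1, hB⟩ := hbasis _ e2
  refine ⟨min γ₁ γ₂, ?_, (min_le_left _ _).trans hγ₁1, ?_⟩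
  · rcases min_choice γ₁ γ₂ with h | h <;> rw [h] <;> assumption
  · intro g hg
    rw [SetLike.mem_coe, mem_cong] at hg
    apply hTS
    apply hTT
    refine ⟨?_, ?_⟩
    · have := hA (fun i j => (g.1 - 1) i j) (fun i j => lt_of_lt_of_le (hg.1 i j) (min_le_left _ _))
      have h5 : (Matrix.of (fun i j => (g.1 - 1) i j) + 1 : Matrix (Fin n) (Fin n) F) = g.1 := by
        ext i j
        simp
      simp only [Set.mem_ofPred_eq] at this
      rw [h5] at this
      exact this
    · have := hB (fun i j => (g⁻¹.1 - 1) i j)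
        (fun i j => lt_of_lt_of_le (hg.2 i j) (min_le_right _ _))
      have h5 : (Matrix.of (fun i j => (g⁻¹.1 - 1) i j) + 1 : Matrix (Fin n) (Fin n) F) =
          g⁻¹.1 := by
        ext i j
        simp
      simp only [Set.mem_ofPred_eq] at this
      rw [h5] at this
      exact this

lemma pow_expand {X : Matrix (Fin n) (Fin n) F} (hX : ∀ i j, valuation F (X i j) ≤ 1) (m : ℕ) :
    ∃ Y : Matrix (Fin n) (Fin n) F, (∀ i j, valuation F (Y i j) ≤ 1) ∧
      (1 + X) ^ m = 1 + (m : F) • X + X * (X * Y) := by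
  have hmul : ∀ Y Z : Matrix (Fin n) (Fin n) F, (∀ i j, valuation F (Y i j) ≤ 1) →
      (∀ i j, valuation F (Z i j) ≤ 1) → ∀ i j, valuation F ((Y * Z) i j) ≤ 1 := by
    intro Y Z hY hZ i j
    rw [Matrix.mul_apply]
    refine (valuation F).map_sum_le fun l _ => ?_
    rw [map_mul]
    exact mul_le_one' (hY i l) (hZ l j)
  have hone : ∀ i j, valuation F ((1 : Matrix (Fin n) (Fin n) F) i j) ≤ 1 := by
    intro i j
    rw [Matrix.one_apply]
    split_ifs <;> simp
  have hnat : ∀ m : ℕ, valuation F (m : F) ≤ 1 := by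
    intro m
    induction m with
    | zero => simp
    | succ m ih =>
      rw [Nat.cast_succ]
      exact (valuation F).map_add_le ih (by simp)
  induction m with
  | zero => exact ⟨0, by simp, by simp⟩
  | succ m ih =>
    obtain ⟨Y, hY, h⟩ := ih
    refine ⟨(m : F) • 1 + Y * (1 + X), ?_, ?_⟩
    · intro i j
      rw [Matrix.add_apply]
      refine (valuation F).map_add_le ?_ ?_
      · rw [Matrix.smul_apply, smul_eq_mul, map_mul]
        exact mul_le_one' (hnat m) (hone i j)
      · refine hmul _ _ hY ?_ i j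
        intro i j
        rw [Matrix.add_apply]
        exact (valuation F).map_add_le (hone i j) (hX i j)
    · rw [pow_succ, h]
      simp only [Nat.cast_succ, add_smul, one_smul, mul_add, add_mul, mul_one, one_mul,
        Matrix.mul_smul, Matrix.smul_mul, mul_assoc]
      abel

/-- No element of order `p` in the quotients of the first congruence subgroup. -/
lemma pow_not_mem {p : ℕ} (hp : valuation F (p : F) = 1) {γ : ValueGroupWithZero F} (hγ : γ ≠ 0)
    (hγ1 : γ ≤ 1) (g : GL (Fin n) F)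
    (hg : g ∈ cong n (1 : ValueGroupWithZero F) one_ne_zero le_rfl)
    (hgp : g ^ p ∈ cong n γ hγ hγ1) : g ∈ cong n γ hγ hγ1 := by
  -- it is enough to look at `g - 1`
  have main : ∀ i j, valuation F ((g.1 - 1) i j) < γ := by
    by_contra hcon
    push Not at hcon
    obtain ⟨i₁, j₁, h₁⟩ := hcon
    obtain ⟨⟨i₀, j₀⟩, -, hmax⟩ := Finset.exists_max_image (Finset.univ : Finset (Fin n × Fin n))
      (fun ij => valuation F ((g.1 - 1) ij.1 ij.2)) ⟨(i₁, j₁), Finset.mem_univ _⟩
    set μ := valuation F ((g.1 - 1) i₀ j₀) with hμ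
    have hμle : ∀ i j, valuation F ((g.1 - 1) i j) ≤ μ := fun i j =>
      hmax (i, j) (Finset.mem_univ _)
    have hγμ : γ ≤ μ := h₁.trans (hμle _ _)
    have hμ1 : μ < 1 := hg.1 i₀ j₀
    have hμ0 : μ ≠ 0 := by
      intro h
      rw [h] at hγμ
      exact hγ (le_antisymm hγμ zero_le)
    obtain ⟨Y, hY, hexp⟩ := pow_expand (X := g.1 - 1) (fun i j => (hμle i j).trans hμ1.le) p
    rw [add_sub_cancel] at hexp
    have h2 : (((g ^ p : GL (Fin n) F) : Matrix (Fin n) (Fin n) F) - 1) i₀ j₀ =
        (p : F) * (g.1 - 1) i₀ j₀ + ((g.1 - 1) * ((g.1 - 1) * Y)) i₀ j₀ := by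
      rw [Units.val_pow_eq_pow_val, hexp]
      simp only [Matrix.add_apply, Matrix.sub_apply, Matrix.smul_apply, smul_eq_mul]
      ring
    have h3 : valuation F (((g.1 - 1) * ((g.1 - 1) * Y)) i₀ j₀) < μ := by
      rw [Matrix.mul_apply]
      refine (valuation F).map_sum_lt hμ0 fun l _ => ?_
      rw [map_mul, Matrix.mul_apply]
      have h4 : valuation F (∑ m, (g.1 - 1) l m * Y m j₀) ≤ μ := by
        refine (valuation F).map_sum_le fun m _ => ?_
        rw [map_mul]
        calc valuation F ((g.1 - 1) l m) * valuation F (Y m j₀) ≤ μ * 1 := by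
              gcongr
              · exact hμle l m
              · exact hY m j₀
          _ = μ := mul_one _
      calc valuation F ((g.1 - 1) i₀ l) * valuation F (∑ m, (g.1 - 1) l m * Y m j₀)
          ≤ μ * μ := by
            gcongr
            exact hμle i₀ l
        _ < μ * 1 := by
            exact mul_lt_mul_of_pos_left hμ1 (zero_lt_iff.2 hμ0)
        _ = μ := mul_one _
    have h5 : valuation F ((((g ^ p : GL (Fin n) F) : Matrix (Fin n) (Fin n) F) - 1) i₀ j₀) = μ := by
      rw [h2, (valuation F).map_add_eq_of_lt_left]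
      · rw [map_mul, hp, one_mul]
      · rw [map_mul, hp, one_mul]
        exact h3
    have h6 := hgp.1 i₀ j₀
    rw [h5] at h6
    exact absurd (lt_of_lt_of_le h6 hγμ) (lt_irrefl _)
  refine ⟨main, ?_⟩
  intro i j
  have h1 : (g⁻¹.1 - 1 : Matrix (Fin n) (Fin n) F) = -((g.1 - 1) * g⁻¹.1) := by
    rw [sub_mul, one_mul, ← Units.val_mul, mul_inv_cancel, Units.val_one]
    abel
  rw [h1, Matrix.neg_apply, Valuation.map_neg]
  refine mul_entry_lt hγ le_rfl main ?_ i j
  intro i j
  have h2 : (g⁻¹.1 : Matrix (Fin n) (Fin n) F) i j = (g⁻¹.1 - 1 : Matrix (Fin n) (Fin n) F) i j +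
      (1 : Matrix (Fin n) (Fin n) F) i j := by simp
  rw [h2]
  refine (valuation F).map_add_le (hg.2 i j).le ?_
  rw [Matrix.one_apply]
  split_ifs <;> simp

/-- The congruence subgroup of level `γ` is normalized by the first one. -/
lemma conj_mem {γ : ValueGroupWithZero F} (hγ : γ ≠ 0) (hγ1 : γ ≤ 1) (g h : GL (Fin n) F)
    (hg : g ∈ cong n (1 : ValueGroupWithZero F) one_ne_zero le_rfl)
    (hh : h ∈ cong n γ hγ hγ1) : g * h * g⁻¹ ∈ cong n γ hγ hγ1 := by
  have hint : ∀ x : GL (Fin n) F, (∀ i j, valuation F ((x.1 - 1) i j) < 1) →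
      ∀ i j, valuation F (x.1 i j) ≤ 1 := by
    intro x hx i j
    have h2 : x.1 i j = (x.1 - 1) i j + (1 : Matrix (Fin n) (Fin n) F) i j := by simp
    rw [h2]
    refine (valuation F).map_add_le (hx i j).le ?_
    rw [Matrix.one_apply]
    split_ifs <;> simp
  have key : ∀ y : GL (Fin n) F, (∀ i j, valuation F ((y.1 - 1) i j) < γ) →
      ∀ i j, valuation F (((g * y * g⁻¹ : GL (Fin n) F).1 - 1) i j) < γ := by
    intro y hy i j
    have h1 : ((g * y * g⁻¹ : GL (Fin n) F).1 - 1 : Matrix (Fin n) (Fin n) F) =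
        g.1 * ((y.1 - 1) * g⁻¹.1) := by
      rw [sub_mul, one_mul, mul_sub, ← Units.val_mul, ← Units.val_mul, ← Units.val_mul,
        mul_inv_cancel, Units.val_one, mul_assoc]
    rw [h1, Matrix.mul_apply]
    refine (valuation F).map_sum_lt hγ fun l _ => ?_
    rw [map_mul]
    have h2 : valuation F (((y.1 - 1) * g⁻¹.1) l j) < γ :=
      mul_entry_lt hγ le_rfl hy (hint g⁻¹ hg.2) l j
    calc valuation F (g.1 i l) * valuation F (((y.1 - 1) * g⁻¹.1) l j)
        ≤ 1 * valuation F (((y.1 - 1) * g⁻¹.1) l j) := by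
          gcongr
          exact hint g hg.1 i l
      _ = valuation F (((y.1 - 1) * g⁻¹.1) l j) := one_mul _
      _ < γ := h2
  refine ⟨key h hh.1, ?_⟩
  have h3 : (g * h * g⁻¹)⁻¹ = g * h⁻¹ * g⁻¹ := by group
  rw [h3]
  exact key h⁻¹ hh.2

/-- Every closed subgroup of `GL_n(F)` has a compact open subgroup of pro-order prime to `p`. -/
theorem exists_proPrime {p : ℕ} (hpp : p.Prime) (hp : valuation F (p : F) = 1)
    (G : Subgroup (GL (Fin n) F)) (hG : IsClosed (G : Set (GL (Fin n) F))) :
    ∃ U₀ : Subgroup G, IsOpen (U₀ : Set G) ∧ IsCompact (U₀ : Set G) ∧ IsProPrime p U₀ := by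
  let U₀ : Subgroup G := (cong n (1 : ValueGroupWithZero F) one_ne_zero le_rfl).subgroupOf G
  refine ⟨U₀, ?_, ?_, ?_⟩
  · exact (isOpen_cong one_ne_zero le_rfl).preimage continuous_subtype_val
  · exact hG.isClosedEmbedding_subtypeVal.isCompact_preimage isCompact_cong
  · intro W hW hWU hdvd
    have := Fact.mk hpp
    obtain ⟨S, hSo, hS⟩ := isOpen_induced_iff.1 hW
    obtain ⟨γ, hγ, hγ1, hsub⟩ := exists_cong_subset S hSo (by
      have h1 : (1 : G) ∈ (W : Set G) := W.one_mem
      rw [← hS] at h1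
      exact h1)
    let N : Subgroup G := (cong n γ hγ hγ1).subgroupOf G
    have hNo : IsOpen (N : Set G) := (isOpen_cong hγ hγ1).preimage continuous_subtype_val
    have hNW : N ≤ W := by
      intro g hg
      have h2 : g ∈ (W : Set G) := by
        rw [← hS]
        exact hsub hg
      exact h2
    have hdvd' : p ∣ N.relIndex U₀ := by
      rw [← Subgroup.relIndex_mul_relIndex N W U₀ hNW hWU]
      exact Dvd.dvd.mul_left hdvd _
    have hcpt : CompactSpace U₀ := isCompact_iff_compactSpace.1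
      (hG.isClosedEmbedding_subtypeVal.isCompact_preimage isCompact_cong)
    let N' : Subgroup U₀ := N.subgroupOf U₀
    have hN'o : IsOpen (N' : Set U₀) := hNo.preimage continuous_subtype_val
    have hnorm : N'.Normal := by
      constructor
      intro x hx g
      exact conj_mem hγ hγ1 _ _ g.2 hx
    have hfin : Finite (U₀ ⧸ N') := Subgroup.quotient_finite_of_isOpen N' hN'o
    have := Fintype.ofFinite (U₀ ⧸ N')
    have hcard : p ∣ Fintype.card (U₀ ⧸ N') := by
      rw [← Nat.card_eq_fintype_card]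
      exact hdvd'
    obtain ⟨x, hx⟩ := exists_prime_orderOf_dvd_card p hcard
    obtain ⟨g, rfl⟩ := QuotientGroup.mk_surjective x
    have hgp : g ^ p ∈ N' := by
      have h3 := pow_orderOf_eq_one (QuotientGroup.mk g : U₀ ⧸ N')
      rw [hx, ← QuotientGroup.mk_pow, QuotientGroup.eq_one_iff] at h3
      exact h3
    have hg : g ∈ N' := pow_not_mem hp hγ hγ1 _ g.2 hgp
    have h4 : (QuotientGroup.mk g : U₀ ⧸ N') = 1 := (QuotientGroup.eq_one_iff g).2 hg
    rw [h4, orderOf_one] at hx
    exact hpp.one_lt.ne hx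

/-- Every closed subgroup of `GL_n(F)` has a basis of open subgroups. -/
lemma exists_open_subgroup (G : Subgroup (GL (Fin n) F)) :
    ∀ S : Set G, IsOpen S → (1 : G) ∈ S → ∃ W : Subgroup G, IsOpen (W : Set G) ∧
      (W : Set G) ⊆ S := by
  intro S hS h1
  obtain ⟨T, hTo, hT⟩ := isOpen_induced_iff.1 hS
  obtain ⟨γ, hγ, hγ1, hsub⟩ := exists_cong_subset T hTo (by
    rw [← hT] at h1
    exact h1)
  refine ⟨(cong n γ hγ hγ1).subgroupOf G,
    (isOpen_cong hγ hγ1).preimage continuous_subtype_val, ?_⟩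
  intro g hg
  rw [← hT]
  exact hsub hg

end loc

end Pool.Agent.R374.Tate
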