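import Pool.Agent.R374.TateTop

/-!
# Tate cohomology of admissible representations is admissible
-/

set_option linter.unusedSectionVars false
set_option linter.style.haveILetI false

namespace Pool.Agent.R374.Tate

open Finset

variable {k G V : Type*} [Field k] [Group G] [TopologicalSpace G] [IsTopologicalGroup G]
  [AddCommGroup V] [Module k V] {p : ℕ} {σ : G ≃* G} {ρ : Representation k G V} {A : V →ₗ[k] V}

lemma id_sub_apply (A : V →ₗ[k] V) (v : V) : (LinearMap.id - A : V →ₗ[k] V) v = v - A v := rfl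

lemma pow_sub_mem (j : ℕ) (v : V) : (A ^ j) v - v ∈ LinearMap.range (LinearMap.id - A) := by
  induction j with
  | zero => simp
  | succ j ih =>
    have h1 : (A ^ (j + 1)) v - v = -((LinearMap.id - A : V →ₗ[k] V) ((A ^ j) v)) + ((A ^ j) v - v) := by
      rw [id_sub_apply, pow_succ', Module.End.mul_apply]
      abel
    rw [h1]
    exact Submodule.add_mem _ (Submodule.neg_mem _ ⟨_, rfl⟩) ih

/-- `T^0`: classes fixed by `U^σ` are represented by vectors in `V^U`. -/
lemma key_zero [T2Space G] (hp : p.Prime) [CharP k p] (hsm : IsSmooth ρ)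
    (hA : IsAction ρ σ p A) (hσp : ∀ g, σ^[p] g = g) (hσc : Continuous σ)
    (hna : ∀ S : Set G, IsOpen S → (1 : G) ∈ S → ∃ W : Subgroup G, IsOpen (W : Set G) ∧
      (W : Set G) ⊆ S)
    {U : Subgroup G} (hUo : IsOpen (U : Set G)) (hUc : IsCompact (U : Set G))
    (hprime : IsProPrime p U) (hσU : ∀ g ∈ U, σ g ∈ U)
    (v : V) (hv : v ∈ LinearMap.ker (LinearMap.id - A))
    (hfix : ∀ c ∈ U, σ c = c → ρ c v - v ∈ LinearMap.range (normOp p A)) :
    ∃ w ∈ LinearMap.ker (LinearMap.id - A), w ∈ fixedBy ρ U ∧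
      v - w ∈ LinearMap.range (normOp p A) := by
  have hAv : A v = v := by
    rw [LinearMap.mem_ker, id_sub_apply, sub_eq_zero] at hv
    exact hv.symm
  have hAjv : ∀ j, (A ^ j) v = v := by
    intro j
    induction j with
    | zero => simp
    | succ j ih => rw [pow_succ', Module.End.mul_apply, ih, hAv]
  obtain ⟨U', hft, c, hU'U, hσU', hvU', hR⟩ := key hp ρ hsm hσp hσc hna hUo hUc hprime hσU v
    (LinearMap.range (normOp p A)) (by
      intro u _
      refine ⟨ρ u v, ?_⟩
      simp only [normOp, LinearMap.sum_apply]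
      refine Finset.sum_congr rfl fun j _ => ?_
      rw [pow_intertwine hA.intertwine, hAjv]) hfix
  refine ⟨c • traceOp ρ U U' v, ?_, (fixedBy ρ U).smul_mem _ (traceOp_mem ρ v hvU'), hR⟩
  refine Submodule.smul_mem _ _ ?_
  rw [LinearMap.mem_ker, id_sub_apply, sub_eq_zero,
    traceOp_comm hp ρ hσp hσU hσU' A hA.intertwine v (by rw [hAv]; exact hvU'), hAv]

/-- `T^1`: classes fixed by `U^σ` are represented by vectors in `V^U`. -/
lemma key_one [T2Space G] (hp : p.Prime) [CharP k p] (hsm : IsSmooth ρ)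
    (hA : IsAction ρ σ p A) (hσp : ∀ g, σ^[p] g = g) (hσc : Continuous σ)
    (hna : ∀ S : Set G, IsOpen S → (1 : G) ∈ S → ∃ W : Subgroup G, IsOpen (W : Set G) ∧
      (W : Set G) ⊆ S)
    {U : Subgroup G} (hUo : IsOpen (U : Set G)) (hUc : IsCompact (U : Set G))
    (hprime : IsProPrime p U) (hσU : ∀ g ∈ U, σ g ∈ U)
    (v : V) (hv : v ∈ LinearMap.ker (normOp p A))
    (hfix : ∀ c ∈ U, σ c = c → ρ c v - v ∈ LinearMap.range (LinearMap.id - A)) :
    ∃ w ∈ LinearMap.ker (normOp p A), w ∈ fixedBy ρ U ∧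
      v - w ∈ LinearMap.range (LinearMap.id - A) := by
  rw [LinearMap.mem_ker] at hv
  obtain ⟨U', hft, c, hU'U, hσU', hvU', hR⟩ := key hp ρ hsm hσp hσc hna hUo hUc hprime hσU v
    (LinearMap.range (LinearMap.id - A)) (by
      intro u _
      have h1 : ∀ j ∈ range p, ρ (σ^[j] u) v =
          ((A ^ j) (ρ u ((A ^ (p - j)) v)) - ρ u ((A ^ (p - j)) v)) +
            ρ u ((A ^ (p - j)) v) := by
        intro j hj
        rw [mem_range] at hj
        rw [sub_add_cancel, pow_intertwine hA.intertwine, ← Module.End.mul_apply (A ^ j),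
          ← pow_add, Nat.add_sub_cancel' hj.le, hA.pow_eq_one, Module.End.one_apply]
      rw [Finset.sum_congr rfl h1, Finset.sum_add_distrib]
      have h2 : ∑ j ∈ range p, ρ u ((A ^ (p - j)) v) = 0 := by
        have h3 : ∑ j ∈ range p, (A ^ (p - j)) v = A (normOp p A v) := by
          simp only [normOp, LinearMap.sum_apply, map_sum]
          rw [← Finset.sum_range_reflect]
          refine Finset.sum_congr rfl fun j hj => ?_
          rw [mem_range] at hj
          rw [← Module.End.mul_apply, ← pow_succ']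
          congr 2
          omega
        rw [← map_sum, h3, hv, map_zero, map_zero]
      rw [h2, add_zero]
      exact Submodule.sum_mem _ fun j _ => pow_sub_mem j _) hfix
  refine ⟨c • traceOp ρ U U' v, ?_, (fixedBy ρ U).smul_mem _ (traceOp_mem ρ v hvU'), hR⟩
  refine Submodule.smul_mem _ _ ?_
  have hmem : ∀ j, (A ^ j) v ∈ fixedBy ρ U' := by
    intro j
    induction j with
    | zero => exact hvU'
    | succ j ih =>
      rw [pow_succ', Module.End.mul_apply]
      exact pow_mem_fixedBy hσp hσU' hA.intertwine hp.one_le _ ih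
  have hcomm : ∀ j, (A ^ j) (traceOp ρ U U' v) = traceOp ρ U U' ((A ^ j) v) := by
    intro j
    induction j with
    | zero => rfl
    | succ j ih =>
      rw [pow_succ', Module.End.mul_apply, ih, Module.End.mul_apply]
      refine traceOp_comm hp ρ hσp hσU hσU' A hA.intertwine _ ?_
      rw [← Module.End.mul_apply, ← pow_succ']
      exact hmem (j + 1)
  rw [LinearMap.mem_ker]
  have h4 : normOp p A (traceOp ρ U U' v) = traceOp ρ U U' (normOp p A v) := by
    simp only [normOp, LinearMap.sum_apply, map_sum, hcomm]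
  rw [h4, hv, map_zero]

/-- Existence of small `σ`-stable compact open subgroups. -/
lemma exists_small (hp : p.Prime) (hσp : ∀ g, σ^[p] g = g) (hσc : Continuous σ)
    (hna : ∀ S : Set G, IsOpen S → (1 : G) ∈ S → ∃ W : Subgroup G, IsOpen (W : Set G) ∧
      (W : Set G) ⊆ S)
    {U₀ : Subgroup G} (hUo : IsOpen (U₀ : Set G)) (hUc : IsCompact (U₀ : Set G))
    (hprime : IsProPrime p U₀) (K : Subgroup (fixedSubgroup σ))
    (hK : IsOpen (K : Set (fixedSubgroup σ))) :
    ∃ U : Subgroup G, IsOpen (U : Set G) ∧ IsCompact (U : Set G) ∧ IsProPrime p U ∧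
      (∀ g ∈ U, σ g ∈ U) ∧ ∀ c : fixedSubgroup σ, (c : G) ∈ U → c ∈ K := by
  obtain ⟨S, hSo, hS⟩ := isOpen_induced_iff.1 hK
  obtain ⟨W, hWo, hWS⟩ := hna S hSo (by
    have h1 : (1 : fixedSubgroup σ) ∈ (K : Set (fixedSubgroup σ)) := K.one_mem
    rw [← hS] at h1
    exact h1)
  have hUU₀ : core' σ p (W ⊓ U₀) ≤ U₀ := (core'_le hp _).trans inf_le_right
  have ho : IsOpen (core' σ p (W ⊓ U₀) : Set G) := core'_isOpen hσc _ (hWo.inter hUo)
  refine ⟨core' σ p (W ⊓ U₀), ho,
    hUc.of_isClosed_subset (Subgroup.isClosed_of_isOpen _ ho) hUU₀, hprime.mono hUU₀,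
    core'_stable hσp _, ?_⟩
  intro c hc
  have h1 : (c : G) ∈ W := (core'_le hp _ hc).1
  have h2 : c ∈ (K : Set (fixedSubgroup σ)) := by
    rw [← hS]
    exact hWS h1
  exact h2

/-- **Main theorem.** For an admissible representation `ρ` of a group `G` having an open compact
subgroup of pro-order prime to `p`, with an action `A` of the automorphism `σ` of order `p`, the
Tate cohomology groups are admissible representations of `G^σ`. -/
theorem main_abstract [T2Space G] (hp : p.Prime) [CharP k p]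
    (hA : IsAction ρ σ p A) (hσp : ∀ g, σ^[p] g = g) (hσc : Continuous σ)
    (hna : ∀ S : Set G, IsOpen S → (1 : G) ∈ S → ∃ W : Subgroup G, IsOpen (W : Set G) ∧
      (W : Set G) ⊆ S)
    {U₀ : Subgroup G} (hUo : IsOpen (U₀ : Set G)) (hUc : IsCompact (U₀ : Set G))
    (hprime : IsProPrime p U₀) (hadm : IsAdmissible ρ) :
    IsAdmissible (tateZero hA) ∧ IsAdmissible (tateOne hA) := by
  have hsm : IsSmooth (ρ.comp (fixedSubgroup σ).subtype) := by
    intro v
    exact (hadm.1 v).preimage continuous_subtype_val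
  refine ⟨⟨subquotRep_smooth _ hsm _ _ _ _, ?_⟩, ⟨subquotRep_smooth _ hsm _ _ _ _, ?_⟩⟩
  · intro K hKo _
    obtain ⟨U, ho, hc, hpr, hσU, hUK⟩ := exists_small hp hσp hσc hna hUo hUc hprime K hKo
    exact finite_aux ρ _ _ _ _ (hadm.2 U ho hc) (fun v hv hfix =>
      key_zero hp hadm.1 hA hσp hσc hna ho hc hpr hσU v hv hfix) K hUK
  · intro K hKo _
    obtain ⟨U, ho, hc, hpr, hσU, hUK⟩ := exists_small hp hσp hσc hna hUo hUc hprime K hKo
    exact finite_aux ρ _ _ _ _ (hadm.2 U ho hc) (fun v hv hfix =>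
      key_one hp hadm.1 hA hσp hσc hna ho hc hpr hσU v hv hfix) K hUK

end Pool.Agent.R374.Tate
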