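import Pool.Agent.R374.TateGL

/-!
# Schur's lemma and the action of `σ`; the residue characteristic
-/

set_option linter.unusedSectionVars false
set_option linter.style.haveILetI false

namespace Pool.Agent.R374.Tate

open ValuativeRel

section schur

variable {k G V : Type*} [Field k] [Group G] [TopologicalSpace G] [IsTopologicalGroup G]
  [AddCommGroup V] [Module k V] {p : ℕ} {σ : G ≃* G} {ρ : Representation k G V}

/-- Schur's lemma for admissible irreducible representations. -/
lemma schur [IsAlgClosed k] (hirr : IsIrred ρ) (hadm : IsAdmissible ρ)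
    {U₀ : Subgroup G} (hUo : IsOpen (U₀ : Set G)) (hUc : IsCompact (U₀ : Set G))
    (T : V →ₗ[k] V) (hT : ∀ g v, T (ρ g v) = ρ g (T v)) : ∃ c : k, ∀ v, T v = c • v := by
  obtain ⟨hnt, hsub⟩ := hirr
  obtain ⟨v, hv⟩ := exists_ne (0 : V)
  let U : Subgroup G := stabOf ρ v ⊓ U₀
  have hUo' : IsOpen (U : Set G) := (hadm.1 v).inter hUo
  have hUc' : IsCompact (U : Set G) :=
    hUc.of_isClosed_subset (U.isClosed_of_isOpen hUo') (inf_le_right : U ≤ U₀)
  haveI := hadm.2 U hUo' hUc'
  have hvU : v ∈ fixedBy ρ U := fun g hg => hg.1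
  haveI : Nontrivial (fixedBy ρ U) := ⟨⟨v, hvU⟩, 0, fun h => hv (congrArg Subtype.val h)⟩
  have hTU : ∀ w ∈ fixedBy ρ U, T w ∈ fixedBy ρ U := by
    intro w hw g hg
    rw [← hT, hw g hg]
  obtain ⟨c, hc⟩ := Module.End.exists_eigenvalue (T.restrict hTU)
  obtain ⟨w, hw⟩ := hc.exists_hasEigenvector
  have hw1 : T (w : V) = c • (w : V) := by
    have := hw.apply_eq_smul
    have h2 := congrArg Subtype.val this
    simpa using h2
  have hw0 : (w : V) ≠ 0 := fun h => hw.2 (Subtype.ext h)
  refine ⟨c, ?_⟩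
  have h1 := hsub (LinearMap.ker (T - c • LinearMap.id)) (by
    intro g x hx
    rw [LinearMap.mem_ker, LinearMap.sub_apply, LinearMap.smul_apply, LinearMap.id_apply,
      sub_eq_zero] at hx ⊢
    rw [hT, hx, map_smul])
  rcases h1 with h1 | h1
  · exfalso
    apply hw0
    have : (w : V) ∈ LinearMap.ker (T - c • LinearMap.id) := by
      rw [LinearMap.mem_ker, LinearMap.sub_apply, LinearMap.smul_apply, LinearMap.id_apply,
        hw1, sub_self]
    rw [h1] at this
    exact (Submodule.mem_bot k).1 this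
  · intro x
    have : x ∈ LinearMap.ker (T - c • LinearMap.id) := by rw [h1]; trivial
    rwa [LinearMap.mem_ker, LinearMap.sub_apply, LinearMap.smul_apply, LinearMap.id_apply,
      sub_eq_zero] at this

/-- Existence and uniqueness of the action of `σ` on an irreducible `σ`-fixed representation. -/
theorem exists_unique_action [IsAlgClosed k] [CharP k p] (hp : p.Prime) (hirr : IsIrred ρ)
    (hadm : IsAdmissible ρ) {U₀ : Subgroup G} (hUo : IsOpen (U₀ : Set G))
    (hUc : IsCompact (U₀ : Set G)) (hσp : ∀ g, σ^[p] g = g)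
    (hfix : ∃ e : V ≃ₗ[k] V, ∀ g v, e (ρ g v) = ρ (σ g) (e v)) :
    ∃! A : V →ₗ[k] V, IsAction ρ σ p A := by
  have := Fact.mk hp
  obtain ⟨e, he⟩ := hfix
  have hpow : ∀ (B : V →ₗ[k] V), (∀ g v, B (ρ g v) = ρ (σ g) (B v)) → ∀ (j : ℕ) g v,
      (B ^ j) (ρ g v) = ρ (σ^[j] g) ((B ^ j) v) := fun B hB j g v => pow_intertwine hB j g v
  obtain ⟨v, hv⟩ := @exists_ne _ hirr.1 (0 : V)
  obtain ⟨c, hc⟩ := schur hirr hadm hUo hUc ((e : V →ₗ[k] V) ^ p) (by
    intro g v
    rw [hpow _ he, hσp])
  have hc0 : c ≠ 0 := by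
    rintro rfl
    have h1 := hc v
    rw [zero_smul] at h1
    have hinj : Function.Injective ((e : V →ₗ[k] V) ^ p) := by
      rw [Module.End.coe_pow]
      exact e.injective.iterate p
    exact hv (hinj (by rw [h1, map_zero]))
  obtain ⟨d, hd⟩ := IsAlgClosed.exists_pow_nat_eq c hp.pos
  have hd0 : d ≠ 0 := by
    rintro rfl
    rw [zero_pow hp.ne_zero] at hd
    exact hc0 hd.symm
  have hA : IsAction ρ σ p (d⁻¹ • (e : V →ₗ[k] V)) := by
    constructor
    · intro g v
      simp only [LinearMap.smul_apply, LinearEquiv.coe_coe, he, map_smul]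
    · apply LinearMap.ext
      intro x
      rw [smul_pow, LinearMap.smul_apply, hc, smul_smul, ← hd, inv_pow,
        inv_mul_cancel₀ (pow_ne_zero _ hd0), one_smul, Module.End.one_apply]
  refine ⟨_, hA, ?_⟩
  intro B hB
  set A := d⁻¹ • (e : V →ₗ[k] V)
  obtain ⟨b, hb⟩ := schur hirr hadm hUo hUc (B * A ^ (p - 1)) (by
    intro g v
    rw [Module.End.mul_apply, hpow A hA.intertwine, hB.intertwine,
      ← Function.iterate_succ_apply' σ, Nat.succ_eq_add_one, Nat.sub_add_cancel hp.one_le, hσp,
      Module.End.mul_apply])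
  have hBA : ∀ x, B x = b • A x := by
    intro x
    have h1 := hb (A x)
    rw [Module.End.mul_apply, ← Module.End.mul_apply (A ^ (p - 1)), ← pow_succ,
      Nat.sub_add_cancel hp.one_le, hA.pow_eq_one, Module.End.one_apply] at h1
    exact h1
  have hBA' : B = b • A := LinearMap.ext hBA
  have hb1 : b ^ p = 1 := by
    have h1 := hB.pow_eq_one
    rw [hBA', smul_pow, hA.pow_eq_one] at h1
    have h2 := LinearMap.congr_fun h1 v
    rw [LinearMap.smul_apply, Module.End.one_apply] at h2
    by_contra hne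
    apply hv
    have h3 : (b ^ p - 1) • v = 0 := by rw [sub_smul, h2, one_smul, sub_self]
    rcases smul_eq_zero.1 h3 with h4 | h4
    · exact absurd (sub_eq_zero.1 h4) hne
    · exact h4
  have hb2 : b = 1 := by
    have h1 : (b - 1) ^ p = 0 := by
      rw [sub_pow_char, hb1, one_pow, sub_self]
    have h2 := pow_eq_zero_iff hp.ne_zero |>.1 h1
    exact sub_eq_zero.1 h2
  rw [hBA', hb2, one_smul]

end schur

/-- If `p` is not zero in the residue field then `p` has valuation one. -/
lemma valuation_natCast_eq_one {F : Type*} [Field F] [ValuativeRel F] [TopologicalSpace F]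
    [IsNonarchimedeanLocalField F] {p : ℕ} (hF : (p : 𝓀[F]) ≠ 0) :
    valuation F (p : F) = 1 := by
  have h1 : IsLocalRing.residue 𝒪[F] (p : 𝒪[F]) ≠ 0 := by
    rw [map_natCast]
    exact hF
  have h2 : IsUnit (p : 𝒪[F]) := by
    by_contra h
    apply h1
    rw [IsLocalRing.residue_eq_zero_iff, IsLocalRing.mem_maximalIdeal]
    exact h
  have h3 := (Valuation.integer.integers (valuation F)).isUnit_iff_valuation_eq_one.1 h2
  simpa using h3

end Pool.Agent.R374.Tate
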