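import Pool.Agent.R374.TateCore

/-!
# Tate cohomology and fixed vectors of pro-`p'` subgroups: the topological part
-/

set_option linter.unusedSectionVars false
set_option linter.style.haveILetI false

namespace Pool.Agent.R374.Tate

open Finset

section top

variable {G : Type*} [Group G] [TopologicalSpace G]

/-- All open subgroups of `U` have (finite) index prime to `p` in `U`. -/
def IsProPrime (p : ℕ) (U : Subgroup G) : Prop :=
  ∀ W : Subgroup G, IsOpen (W : Set G) → W ≤ U → ¬ p ∣ W.relIndex U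

variable {p : ℕ} {σ : G ≃* G}

/-- The largest `σ`-stable subgroup of `W` (where `σ ^ p = 1`). -/
def core' (σ : G ≃* G) (p : ℕ) (W : Subgroup G) : Subgroup G where
  carrier := {g | ∀ j < p, σ^[j] g ∈ W}
  mul_mem' := by
    intro a b ha hb j hj
    rw [iterate_map_mul]
    exact W.mul_mem (ha j hj) (hb j hj)
  one_mem' := by
    intro j _
    rw [iterate_map_one]
    exact W.one_mem
  inv_mem' := by
    intro a ha j hj
    rw [iterate_map_inv]
    exact W.inv_mem (ha j hj)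

lemma core'_le (hp : p.Prime) (W : Subgroup G) : core' σ p W ≤ W := fun _ hg => hg 0 hp.pos

lemma core'_stable (hσp : ∀ g, σ^[p] g = g) (W : Subgroup G) :
    ∀ g ∈ core' σ p W, σ g ∈ core' σ p W := by
  intro g hg j hj
  rw [← Function.iterate_succ_apply σ]
  rcases Nat.lt_or_ge (j + 1) p with h | h
  · exact hg _ h
  · have : j + 1 = p := by omega
    rw [Nat.succ_eq_add_one, this, hσp]
    exact hg 0 (by omega)

lemma core'_isOpen (hσc : Continuous σ) (W : Subgroup G) (hW : IsOpen (W : Set G)) :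
    IsOpen (core' σ p W : Set G) := by
  have : (core' σ p W : Set G) = ⋂ j ∈ Finset.range p, (σ^[j]) ⁻¹' (W : Set G) := by
    ext g
    simp [core']
  rw [this]
  exact isOpen_biInter_finset fun j _ => hW.preimage (hσc.iterate j)

lemma IsProPrime.mono {U₀ U : Subgroup G} (h : IsProPrime p U₀) (hU : U ≤ U₀) :
    IsProPrime p U := by
  intro W hW hWU hdvd
  apply h W hW (hWU.trans hU)
  rw [← Subgroup.relIndex_mul_relIndex W U U₀ hWU hU]
  exact Dvd.dvd.mul_right hdvd _

lemma IsProPrime.finite {U W : Subgroup G} (h : IsProPrime p U) (hW : IsOpen (W : Set G))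
    (hWU : W ≤ U) : Finite (U ⧸ W.subgroupOf U) := by
  have h1 := h W hW hWU
  have : W.relIndex U ≠ 0 := by
    intro h0
    rw [h0] at h1
    exact h1 (dvd_zero p)
  rw [Subgroup.relIndex] at this
  have h2 : (W.subgroupOf U).FiniteIndex := ⟨this⟩
  exact Subgroup.finite_quotient_of_finiteIndex

/-- Twisted fixed points on finite quotients. -/
lemma exists_twisted_fixed (hp : p.Prime) (hσp : ∀ g, σ^[p] g = g) {U' W : Subgroup G}
    (hprime : IsProPrime p U') (hσU' : ∀ g ∈ U', σ g ∈ U') (hW : IsOpen (W : Set G))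
    (hWU : W ≤ U') (hσW : ∀ g ∈ W, σ g ∈ W) (u : G) (hu : u⁻¹ * σ u ∈ U') :
    ∃ a ∈ U', (u * a)⁻¹ * σ (u * a) ∈ W := by
  classical
  have := hprime.finite hW hWU
  have := Fintype.ofFinite (U' ⧸ W.subgroupOf U')
  let b : U' := ⟨u⁻¹ * σ u, hu⟩
  let τ : U' ⧸ W.subgroupOf U' → U' ⧸ W.subgroupOf U' :=
    fun x => b • cosetMap σ U' W hσU' hσW x
  have hτmk : ∀ a : U', τ (QuotientGroup.mk a) = QuotientGroup.mk (b * ⟨σ a, hσU' _ a.2⟩) :=
    fun a => rfl
  have hit : ∀ (j : ℕ) (a : U'), ∃ h : u⁻¹ * σ^[j] (u * a) ∈ U',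
      τ^[j] (QuotientGroup.mk a) = QuotientGroup.mk (⟨u⁻¹ * σ^[j] (u * a), h⟩ : U') := by
    intro j a
    induction j with
    | zero =>
      refine ⟨by simp, ?_⟩
      simp
    | succ j ih =>
      obtain ⟨h, hh⟩ := ih
      have h2 : u⁻¹ * σ^[j + 1] (u * a) = (u⁻¹ * σ u) * σ (u⁻¹ * σ^[j] (u * a)) := by
        rw [map_mul, Function.iterate_succ_apply', map_inv]
        group
      refine ⟨by rw [h2]; exact U'.mul_mem hu (hσU' _ h), ?_⟩
      rw [Function.iterate_succ_apply', hh, hτmk]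
      congr 1
      exact Subtype.ext h2.symm
  have hτ : ∀ x, τ^[p] x = x := by
    intro x
    induction x using QuotientGroup.induction_on with
    | H a =>
      obtain ⟨h, hh⟩ := hit p a
      rw [hh]
      congr 1
      refine Subtype.ext ?_
      simp only [hσp]
      group
  have hcard : ¬ p ∣ Fintype.card (U' ⧸ W.subgroupOf U') := by
    have := hprime W hW hWU
    rwa [Subgroup.relIndex, Subgroup.index, Nat.card_eq_fintype_card] at this
  have h1 := card_fixed_modEq hp τ hτ hcard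
  have h2 : (univ.filter (fun x => τ x = x)).Nonempty := by
    rw [← Finset.card_pos]
    rcases Nat.eq_zero_or_pos (univ.filter (fun x => τ x = x)).card with h0 | h0
    · rw [h0] at h1
      exact absurd (dvd_zero p) h1
    · exact h0
  obtain ⟨x, hx⟩ := h2
  rw [mem_filter] at hx
  obtain ⟨-, hx⟩ := hx
  induction x using QuotientGroup.induction_on with
  | H a =>
    rw [hτmk] at hx
    have h3 := QuotientGroup.eq.1 hx.symm
    rw [Subgroup.mem_subgroupOf] at h3
    refine ⟨a, a.2, ?_⟩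
    have h4 : (u * (a : G))⁻¹ * σ (u * a) = (a : G)⁻¹ * ((u⁻¹ * σ u) * σ a) := by
      rw [map_mul]
      group
    rw [h4]
    simpa using h3

/-- Surjectivity of `U^σ → (U/U')^σ`. -/
lemma exists_fixed_lift [IsTopologicalGroup G] [T2Space G] (hp : p.Prime)
    (hσp : ∀ g, σ^[p] g = g) (hσc : Continuous σ)
    (hna : ∀ S : Set G, IsOpen S → (1 : G) ∈ S → ∃ W : Subgroup G, IsOpen (W : Set G) ∧
      (W : Set G) ⊆ S)
    {U' : Subgroup G} (hU'o : IsOpen (U' : Set G)) (hU'c : IsCompact (U' : Set G))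
    (hprime : IsProPrime p U') (hσU' : ∀ g ∈ U', σ g ∈ U') (u : G) (hu : u⁻¹ * σ u ∈ U') :
    ∃ c, σ c = c ∧ u⁻¹ * c ∈ U' := by
  let ι := {W : Subgroup G // IsOpen (W : Set G) ∧ W ≤ U' ∧ ∀ g ∈ W, σ g ∈ W}
  let Z : ι → Set G := fun W => {y | u⁻¹ * y ∈ U' ∧ y⁻¹ * σ y ∈ W.1}
  have hcl : ∀ W : ι, IsClosed (Z W) := by
    intro W
    have h1 : IsClosed (U' : Set G) := U'.isClosed_of_isOpen hU'o
    have h2 : IsClosed (W.1 : Set G) := W.1.isClosed_of_isOpen W.2.1
    refine IsClosed.inter ?_ ?_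
    · exact h1.preimage (continuous_const.mul continuous_id)
    · exact h2.preimage (continuous_inv.mul hσc)
  have hcpt : ∀ W : ι, IsCompact (Z W) := by
    intro W
    have h1 : IsCompact ((fun y => u * y) '' (U' : Set G)) :=
      hU'c.image (continuous_const.mul continuous_id)
    refine h1.of_isClosed_subset (hcl W) ?_
    intro y hy
    exact ⟨u⁻¹ * y, hy.1, by group⟩
  have hne : ∀ W : ι, (Z W).Nonempty := by
    intro W
    obtain ⟨a, ha, h⟩ := exists_twisted_fixed hp hσp hprime hσU' W.2.1 W.2.2.1 W.2.2.2 u hu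
    exact ⟨u * a, by simpa using ha, h⟩
  haveI : Nonempty ι := ⟨⟨U', hU'o, le_rfl, hσU'⟩⟩
  have hdir : Directed (fun s t : Set G => s ⊇ t) Z := by
    intro W₁ W₂
    refine ⟨⟨W₁.1 ⊓ W₂.1, W₁.2.1.inter W₂.2.1, inf_le_left.trans W₁.2.2.1,
      fun g hg => ⟨W₁.2.2.2 g hg.1, W₂.2.2.2 g hg.2⟩⟩, ?_, ?_⟩
    · intro y hy
      exact ⟨hy.1, hy.2.1⟩
    · intro y hy
      exact ⟨hy.1, hy.2.2⟩
  obtain ⟨c, hc⟩ := IsCompact.nonempty_iInter_of_directed_nonempty_isCompact_isClosed Z hdir hne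
    hcpt hcl
  rw [Set.mem_iInter] at hc
  refine ⟨c, ?_, (hc ⟨U', hU'o, le_rfl, hσU'⟩).1⟩
  by_contra hne1
  have h3 : c⁻¹ * σ c ≠ 1 := by
    intro h
    apply hne1
    rw [inv_mul_eq_one] at h
    exact h.symm
  obtain ⟨W, hWo, hW⟩ := hna ({c⁻¹ * σ c}ᶜ) isClosed_singleton.isOpen_compl (by
    simpa using h3.symm)
  have hc' := (hc ⟨core' σ p (W ⊓ U'), core'_isOpen hσc _ (hWo.inter hU'o),
    (core'_le hp _).trans inf_le_right, core'_stable hσp _⟩).2
  have h4 : c⁻¹ * σ c ∈ W := (core'_le hp _ hc').1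
  exact hW h4 rfl

end top

section main

variable {k G V : Type*} [Field k] [Group G] [TopologicalSpace G] [IsTopologicalGroup G]
  [AddCommGroup V] [Module k V]

/-- The open stabiliser of a vector. -/
def stabOf (ρ : Representation k G V) (v : V) : Subgroup G where
  carrier := {g | ρ g v = v}
  mul_mem' := by
    intro a b ha hb
    simp only [Set.mem_ofPred_eq] at *
    rw [map_mul, Module.End.mul_apply, hb, ha]
  one_mem' := by simp
  inv_mem' := by
    intro a ha
    simp only [Set.mem_ofPred_eq] at *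
    conv_lhs => rw [← ha]
    rw [← Module.End.mul_apply, ← map_mul, inv_mul_cancel, map_one, Module.End.one_apply]

variable {p : ℕ} {σ : G ≃* G}

/-- Key lemma: classes in `M / R` fixed by `U^σ` come from vectors fixed by `U`. -/
lemma key [T2Space G] (hp : p.Prime) [CharP k p] (ρ : Representation k G V) (hsm : IsSmooth ρ)
    (hσp : ∀ g, σ^[p] g = g) (hσc : Continuous σ)
    (hna : ∀ S : Set G, IsOpen S → (1 : G) ∈ S → ∃ W : Subgroup G, IsOpen (W : Set G) ∧
      (W : Set G) ⊆ S)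
    {U : Subgroup G} (hUo : IsOpen (U : Set G)) (hUc : IsCompact (U : Set G))
    (hprime : IsProPrime p U) (hσU : ∀ g ∈ U, σ g ∈ U)
    (v : V) (R : Submodule k V)
    (hfree : ∀ u ∈ U, ∑ j ∈ range p, ρ (σ^[j] u) v ∈ R)
    (hfix : ∀ c ∈ U, σ c = c → ρ c v - v ∈ R) :
    ∃ (U' : Subgroup G) (_ : Fintype (U ⧸ U'.subgroupOf U)) (c : k), U' ≤ U ∧
      (∀ g ∈ U', σ g ∈ U') ∧ v ∈ fixedBy ρ U' ∧ v - c • traceOp ρ U U' v ∈ R := by
  let U' : Subgroup G := core' σ p (stabOf ρ v ⊓ U)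
  have hU'o : IsOpen (U' : Set G) := core'_isOpen hσc _ ((hsm v).inter hUo)
  have hU'U : U' ≤ U := (core'_le hp _).trans inf_le_right
  have hσU' : ∀ g ∈ U', σ g ∈ U' := core'_stable hσp _
  have hU'c : IsCompact (U' : Set G) :=
    hUc.of_isClosed_subset (U'.isClosed_of_isOpen hU'o) hU'U
  have hv : v ∈ fixedBy ρ U' := fun g hg => ((core'_le hp _).trans inf_le_left) hg
  have hfin := hprime.finite hU'o hU'U
  have := Fintype.ofFinite (U ⧸ U'.subgroupOf U)
  have hcard : ¬ p ∣ Fintype.card (U ⧸ U'.subgroupOf U) := by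
    have := hprime U' hU'o hU'U
    rwa [Subgroup.relIndex, Subgroup.index, Nat.card_eq_fintype_card] at this
  obtain ⟨m, hm, hR⟩ := core hp ρ hσp hσU hσU' hcard (by
    intro u hu h
    obtain ⟨c, hc, hcu⟩ := exists_fixed_lift hp hσp hσc hna hU'o hU'c (hprime.mono hU'U) hσU' u h
    refine ⟨c, ?_, hc, hcu⟩
    have := U.mul_mem hu (hU'U hcu)
    simpa using this) v hv R hfree hfix
  have hm' : (m : k) ≠ 0 := by
    rwa [Ne, CharP.cast_eq_zero_iff k p]
  refine ⟨U', this, (m : k)⁻¹, hU'U, hσU', hv, ?_⟩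
  have h2 := R.smul_mem (-(m : k)⁻¹) hR
  rw [smul_sub, smul_smul, neg_mul, inv_mul_cancel₀ hm', neg_smul, neg_smul, one_smul] at h2
  rw [sub_neg_eq_add, neg_add_eq_sub] at h2
  exact h2

/-- The subquotient representation is smooth. -/
lemma subquotRep_smooth {H : Type*} [Group H] [TopologicalSpace H] [IsTopologicalGroup H]
    (ρ : Representation k H V) (hsm : IsSmooth ρ) (M N : Submodule k V)
    (hM : ∀ h, ∀ v ∈ M, ρ h v ∈ M) (hN : ∀ h, ∀ v ∈ N, ρ h v ∈ N) :
    IsSmooth (subquotRep ρ M N hM hN) := by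
  intro x
  obtain ⟨v, rfl⟩ := Submodule.Quotient.mk_surjective _ x
  have h1 : stabOf ρ (v : V) ≤ stabOf (subquotRep ρ M N hM hN)
      (Submodule.Quotient.mk v) := by
    intro h hh
    change Submodule.Quotient.mk ((ρ h).restrict (hM h) v) = Submodule.Quotient.mk v
    congr 1
    exact Subtype.ext hh
  exact Subgroup.isOpen_mono h1 (hsm v)

/-- Finite-dimensionality of the fixed vectors in a subquotient. -/
lemma finite_aux (ρ : Representation k G V) (M N : Submodule k V)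
    (hM : ∀ h : fixedSubgroup σ, ∀ v ∈ M, ρ (h : G) v ∈ M)
    (hN : ∀ h : fixedSubgroup σ, ∀ v ∈ N, ρ (h : G) v ∈ N) {U : Subgroup G}
    (hU : FiniteDimensional k (fixedBy ρ U))
    (hkey : ∀ v ∈ M, (∀ c ∈ U, σ c = c → ρ c v - v ∈ N) →
      ∃ w ∈ M, w ∈ fixedBy ρ U ∧ v - w ∈ N)
    (K : Subgroup (fixedSubgroup σ)) (hK : ∀ c : fixedSubgroup σ, (c : G) ∈ U → c ∈ K) :
    FiniteDimensional k (fixedBy (subquotRep (ρ.comp (fixedSubgroup σ).subtype) M N hM hN) K) := by
  let f : (M ⊓ fixedBy ρ U : Submodule k V) →ₗ[k] (M ⧸ N.submoduleOf M) :=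
    (N.submoduleOf M).mkQ.comp (Submodule.inclusion inf_le_left)
  have hle : fixedBy (subquotRep (ρ.comp (fixedSubgroup σ).subtype) M N hM hN) K ≤
      LinearMap.range f := by
    intro x hx
    obtain ⟨v, rfl⟩ := Submodule.Quotient.mk_surjective _ x
    obtain ⟨w, hwM, hwU, hvw⟩ := hkey v v.2 (by
      intro c hcU hc
      have h1 := hx ⟨c, hc⟩ (hK ⟨c, hc⟩ hcU)
      have h2 : (Submodule.Quotient.mk (((ρ.comp (fixedSubgroup σ).subtype) ⟨c, hc⟩).restrict
        (hM ⟨c, hc⟩) v) : M ⧸ N.submoduleOf M) = Submodule.Quotient.mk v := h1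
      rw [Submodule.Quotient.eq] at h2
      exact h2)
    refine ⟨⟨w, hwM, hwU⟩, ?_⟩
    change (Submodule.Quotient.mk _ : M ⧸ N.submoduleOf M) = _
    rw [eq_comm, Submodule.Quotient.eq]
    exact hvw
  haveI : FiniteDimensional k (M ⊓ fixedBy ρ U : Submodule k V) :=
    Submodule.finiteDimensional_of_le inf_le_right
  exact Submodule.finiteDimensional_of_le hle

end main

end Pool.Agent.R374.Tate
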